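import Pool.Agent.H88.CM.Targets

/-! Board clm_modules, row RECM: recurrent points are nonwandering. -/

set_option autoImplicit false

open Set Function Topology Metric Filter

namespace Pool.Agent.H64.CLM

open Pool.Agent.H88.CM

theorem cont_pow {M : Type} [TopologicalSpace M] {f : Equiv.Perm M} (hf : Continuous f) (n : ℕ) :
    Continuous ((f ^ n : Equiv.Perm M) : M → M) := by
  induction n with
  | zero => exact continuous_id
  | succ n ih =>
    rw [pow_succ, Equiv.Perm.coe_mul]
    exact ih.comp hf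

theorem cont_zpow {M : Type} [TopologicalSpace M] {f : Equiv.Perm M} (hf : Continuous f)
    (hf' : Continuous f.symm) (k : ℤ) : Continuous ((f ^ k : Equiv.Perm M) : M → M) := by
  obtain ⟨n, rfl | rfl⟩ := k.eq_nat_or_neg
  · rw [zpow_natCast]
    exact cont_pow hf n
  · rw [zpow_neg, zpow_natCast, ← inv_pow]
    exact cont_pow (f := f⁻¹) hf' n

theorem pf_RECM : T_RECM := by
  intro M _ f x hf hf' hR V hV
  by_contra hcon
  have hcon' : ∀ n : ℕ, 1 ≤ n → ∀ v ∈ V, (f ^ n) v ∉ V := fun n hn v hv hv' =>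
    hcon ⟨n, hn, (f ^ n) v, ⟨v, hv, by rw [Equiv.Perm.iterate_eq_pow]⟩, hv'⟩
  have key : ∀ (k : ℤ), ∀ v ∈ V, (f ^ k) v ∈ V → k = 0 := by
    intro k v hv hk
    by_contra hne
    obtain ⟨n, rfl | rfl⟩ := k.eq_nat_or_neg
    · have hn : 1 ≤ n := by
        rcases Nat.eq_zero_or_pos n with rfl | h
        · exact absurd rfl hne
        · exact h
      rw [zpow_natCast] at hk
      exact hcon' n hn v hv hk
    · have hn : 1 ≤ n := by
        rcases Nat.eq_zero_or_pos n with rfl | h
        · exact absurd (by simp) hne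
        · exact h
      refine hcon' n hn _ hk ?_
      rw [← zpow_natCast, ← Equiv.Perm.mul_apply, ← zpow_add, add_neg_cancel, zpow_zero]
      exact hv
  have hx : x ∈ V := mem_of_mem_nhds hV
  apply hR
  have h2 : ∀ k m : ℤ, (f ^ (-m)) ((f ^ k) x) = (f ^ (k - m)) x := by
    intro k m
    rw [← Equiv.Perm.mul_apply, ← zpow_add]
    congr 2
    ring
  refine ⟨isInducing_iff_nhds.2 fun m => ?_, fun k m hkm => ?_⟩
  · refine le_antisymm ?_ ?_
    · rw [nhds_discrete ℤ]
      exact tendsto_iff_comap.1 (tendsto_pure_nhds (fun m : ℤ => (f ^ m) x) m)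
    · rw [nhds_discrete ℤ, le_pure_iff, mem_comap]
      refine ⟨((f ^ (-m) : Equiv.Perm M) : M → M) ⁻¹' V, ?_, ?_⟩
      · refine (cont_zpow hf hf' (-m)).continuousAt.preimage_mem_nhds ?_
        rw [h2 m m, sub_self, zpow_zero]
        exact hV
      · intro k hk
        have hk' : (f ^ (-m)) ((f ^ k) x) ∈ V := hk
        rw [h2] at hk'
        exact sub_eq_zero.1 (key _ x hx hk')
  · have h3 : (f ^ (k - m)) x = x := by
      have hkm' : (f ^ k) x = (f ^ m) x := hkm
      rw [← h2 k m, hkm', h2 m m, sub_self, zpow_zero]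
      rfl
    exact sub_eq_zero.1 (key _ x hx (by rw [h3]; exact hx))

end Pool.Agent.H64.CLM
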